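import Pool.Agent.N298.HS.StmC

/-!
# Project HS, leaf GRP: Thom's group for `p = 2` and its elementary matrices
-/

set_option autoImplicit false

namespace Pool.Agent.N477.HS

open Pool.Agent.N298.HS Matrix

section ring

variable {R : Type} [CommRing R]

/-- block triangular -/
def BT (g : Matrix (Fin 8) (Fin 8) R) : Prop := ∀ i j : Fin 8, blk j < blk i → g i j = 0

theorem pat (i j : Fin 8) :
    ((i.val = 7 ∧ j.val < 7) ∨ (4 ≤ i.val ∧ j.val < 4) ∨ (1 ≤ i.val ∧ j.val < 1)) ↔
      blk j < blk i := by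
  revert i j
  decide

/-- the index map of the middle block -/
def f3 : Fin 3 → Fin 8 := ![1, 2, 3]

theorem f3_inj : Function.Injective f3 := by decide

theorem blk_eq {g : Matrix (Fin 8) (Fin 8) R} :
    (Matrix.of ![
        ![g 1 1, g 1 2, g 1 3],
        ![g 2 1, g 2 2, g 2 3],
        ![g 3 1, g 3 2, g 3 3]]) = g.submatrix f3 f3 := by
  ext i j
  fin_cases i <;> fin_cases j <;> rfl

theorem BT.mul {g h : Matrix (Fin 8) (Fin 8) R} (hg : BT g) (hh : BT h) : BT (g * h) := by
  intro i j hij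
  rw [Matrix.mul_apply]
  refine Finset.sum_eq_zero fun k _ => ?_
  by_cases h1 : blk k < blk i
  · rw [hg i k h1, zero_mul]
  · rw [hh k j (by omega), mul_zero]

theorem BT.mul00 {g h : Matrix (Fin 8) (Fin 8) R} (hh : BT h) :
    (g * h) 0 0 = g 0 0 * h 0 0 := by
  rw [Matrix.mul_apply, Fin.sum_univ_eight]
  rw [hh 1 0 (by decide), hh 2 0 (by decide), hh 3 0 (by decide), hh 4 0 (by decide),
    hh 5 0 (by decide), hh 6 0 (by decide), hh 7 0 (by decide)]
  ring

theorem BT.mul77 {g h : Matrix (Fin 8) (Fin 8) R} (hg : BT g) :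
    (g * h) 7 7 = g 7 7 * h 7 7 := by
  rw [Matrix.mul_apply, Fin.sum_univ_eight]
  rw [hg 7 0 (by decide), hg 7 1 (by decide), hg 7 2 (by decide), hg 7 3 (by decide),
    hg 7 4 (by decide), hg 7 5 (by decide), hg 7 6 (by decide)]
  ring

theorem blk_f3 (a : Fin 3) : blk (f3 a) = 1 := by
  revert a; decide

theorem BT.mulsub {g h : Matrix (Fin 8) (Fin 8) R} (hg : BT g) (hh : BT h) :
    (g * h).submatrix f3 f3 = g.submatrix f3 f3 * h.submatrix f3 f3 := by
  ext a b
  rw [Matrix.submatrix_apply, Matrix.mul_apply, Matrix.mul_apply, Fin.sum_univ_eight,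
    Fin.sum_univ_three]
  have h0 : g (f3 a) 0 = 0 := hg _ _ (by rw [blk_f3]; decide)
  have h4 : h 4 (f3 b) = 0 := hh _ _ (by rw [blk_f3]; decide)
  have h5 : h 5 (f3 b) = 0 := hh _ _ (by rw [blk_f3]; decide)
  have h6 : h 6 (f3 b) = 0 := hh _ _ (by rw [blk_f3]; decide)
  have h7 : h 7 (f3 b) = 0 := hh _ _ (by rw [blk_f3]; decide)
  rw [h0, h4, h5, h6, h7]
  simp only [Matrix.submatrix_apply, zero_mul, mul_zero, zero_add, add_zero]
  rfl

/-- the condition -/
structure Cd (g : Matrix (Fin 8) (Fin 8) R) : Prop where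
  bt : BT g
  h00 : g 0 0 = 1
  h77 : g 7 7 = 1
  hd : (g.submatrix f3 f3).det = 1

theorem Cd.mul {g h : Matrix (Fin 8) (Fin 8) R} (hg : Cd g) (hh : Cd h) : Cd (g * h) where
  bt := hg.bt.mul hh.bt
  h00 := by rw [hh.bt.mul00, hg.h00, hh.h00, one_mul]
  h77 := by rw [hg.bt.mul77, hg.h77, hh.h77, one_mul]
  hd := by rw [hg.bt.mulsub hh.bt, Matrix.det_mul, hg.hd, hh.hd, one_mul]

theorem Cd.one : Cd (1 : Matrix (Fin 8) (Fin 8) R) where
  bt := by
    intro i j hij
    have : i ≠ j := by rintro rfl; exact lt_irrefl _ hij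
    exact Matrix.one_apply_ne this
  h00 := Matrix.one_apply_eq _
  h77 := Matrix.one_apply_eq _
  hd := by rw [Matrix.submatrix_one _ f3_inj, Matrix.det_one]

theorem BT.adj {g : Matrix (Fin 8) (Fin 8) R} (hg : BT g) (hd : g.det = 1) :
    BT g.adjugate := by
  have hu : IsUnit g.det := by rw [hd]; exact isUnit_one
  let _ := Matrix.invertibleOfIsUnitDet g hu
  have h1 : g.BlockTriangular blk := fun i j hij => hg i j hij
  have h2 := Matrix.blockTriangular_inv_of_blockTriangular h1
  intro i j hij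
  have h3 := h2 hij
  rw [Matrix.inv_def, hd, Ring.inverse_one, one_smul] at h3
  exact h3

theorem Cd.adj {g : Matrix (Fin 8) (Fin 8) R} (hg : Cd g) (hd : g.det = 1) :
    Cd g.adjugate := by
  have hb := hg.bt.adj hd
  have h1 : g * g.adjugate = 1 := by rw [Matrix.mul_adjugate, hd, one_smul]
  refine ⟨hb, ?_, ?_, ?_⟩
  · have h2 := hb.mul00 (g := g)
    rw [h1, hg.h00, one_mul, Matrix.one_apply_eq] at h2
    exact h2.symm
  · have h2 := hg.bt.mul77 (h := g.adjugate)
    rw [h1, hg.h77, one_mul, Matrix.one_apply_eq] at h2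
    exact h2.symm
  · have h2 := hg.bt.mulsub hb
    rw [h1, Matrix.submatrix_one _ f3_inj] at h2
    have h3 := congrArg Matrix.det h2
    rw [Matrix.det_mul, hg.hd, one_mul, Matrix.det_one] at h3
    exact h3.symm

/-- the group -/
def Gam (R : Type) [CommRing R] : Subgroup (Matrix.SpecialLinearGroup (Fin 8) R) where
  carrier := {g | Cd (g : Matrix (Fin 8) (Fin 8) R)}
  mul_mem' := by
    intro a b ha hb
    show Cd ((a * b : Matrix.SpecialLinearGroup (Fin 8) R) : Matrix (Fin 8) (Fin 8) R)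
    rw [Matrix.SpecialLinearGroup.coe_mul]
    exact Cd.mul ha hb
  one_mem' := by
    show Cd ((1 : Matrix.SpecialLinearGroup (Fin 8) R) : Matrix (Fin 8) (Fin 8) R)
    rw [Matrix.SpecialLinearGroup.coe_one]
    exact Cd.one
  inv_mem' := by
    intro a ha
    show Cd ((a⁻¹ : Matrix.SpecialLinearGroup (Fin 8) R) : Matrix (Fin 8) (Fin 8) R)
    rw [Matrix.SpecialLinearGroup.coe_inv]
    exact Cd.adj ha a.2

theorem mem_Gam {g : Matrix.SpecialLinearGroup (Fin 8) R} :
    g ∈ Gam R ↔ Cd (g : Matrix (Fin 8) (Fin 8) R) := Iff.rfl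

/-- transvections in `SL` -/
def tv (i j : Fin 8) (h : i ≠ j) (r : R) : Matrix.SpecialLinearGroup (Fin 8) R :=
  ⟨Matrix.transvection i j r, Matrix.det_transvection_of_ne i j h r⟩

theorem tv_coe (i j : Fin 8) (h : i ≠ j) (r : R) :
    (tv i j h r : Matrix (Fin 8) (Fin 8) R) = 1 + Matrix.single i j r := rfl

theorem tv_apply_ne {i j a b : Fin 8} (hab : a ≠ b) (h' : ¬ (a = i ∧ b = j)) (r : R) :
    (1 + Matrix.single i j r : Matrix (Fin 8) (Fin 8) R) a b = 0 := by
  rw [Matrix.add_apply, Matrix.one_apply_ne hab, Matrix.single_apply, if_neg, add_zero]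
  rintro ⟨h1, h2⟩
  exact h' ⟨h1.symm, h2.symm⟩

theorem tv_apply_eq {i j a : Fin 8} (hij : i ≠ j) (r : R) :
    (1 + Matrix.single i j r : Matrix (Fin 8) (Fin 8) R) a a = 1 := by
  rw [Matrix.add_apply, Matrix.one_apply_eq, Matrix.single_apply, if_neg, add_zero]
  rintro ⟨h1, h2⟩
  exact hij (h1.trans h2.symm)

theorem tv_Cd {i j : Fin 8} (h : RP i j) (r : R) :
    Cd (1 + Matrix.single i j r : Matrix (Fin 8) (Fin 8) R) where
  bt := by
    intro a b hab
    refine tv_apply_ne ?_ ?_ r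
    · rintro rfl; exact lt_irrefl _ hab
    · rintro ⟨rfl, rfl⟩
      exact absurd h.2 (by omega)
  h00 := tv_apply_eq h.1 r
  h77 := tv_apply_eq h.1 r
  hd := by
    by_cases hi : ∃ a, f3 a = i
    · by_cases hj : ∃ b, f3 b = j
      · obtain ⟨a, rfl⟩ := hi
        obtain ⟨b, rfl⟩ := hj
        have hab : a ≠ b := by
          rintro rfl; exact h.1 rfl
        have : (1 + Matrix.single (f3 a) (f3 b) r : Matrix (Fin 8) (Fin 8) R).submatrix f3 f3 =
            Matrix.transvection a b r := by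
          ext c d
          rw [Matrix.submatrix_apply, Matrix.transvection, Matrix.add_apply, Matrix.add_apply,
            Matrix.single_apply, Matrix.single_apply, Matrix.one_apply, Matrix.one_apply]
          simp only [f3_inj.eq_iff]
        rw [this, Matrix.det_transvection_of_ne _ _ hab]
      · have : (1 + Matrix.single i j r : Matrix (Fin 8) (Fin 8) R).submatrix f3 f3 = 1 := by
          ext c d
          rw [Matrix.submatrix_apply, Matrix.add_apply, Matrix.single_apply, if_neg, add_zero,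
            Matrix.one_apply, Matrix.one_apply]
          · simp only [f3_inj.eq_iff]
          · rintro ⟨_, h2⟩
            exact hj ⟨d, h2.symm⟩
        rw [this, Matrix.det_one]
    · have : (1 + Matrix.single i j r : Matrix (Fin 8) (Fin 8) R).submatrix f3 f3 = 1 := by
        ext c d
        rw [Matrix.submatrix_apply, Matrix.add_apply, Matrix.single_apply, if_neg, add_zero,
          Matrix.one_apply, Matrix.one_apply]
        · simp only [f3_inj.eq_iff]
        · rintro ⟨h1, _⟩
          exact hi ⟨c, h1.symm⟩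
      rw [this, Matrix.det_one]

/-- transvections in the group -/
def tg (i j : Fin 8) (h : RP i j) (r : R) : Gam R := ⟨tv i j h.1 r, tv_Cd h r⟩

theorem tg_ext {a b : Gam R}
    (h : ((a : Matrix.SpecialLinearGroup (Fin 8) R) : Matrix (Fin 8) (Fin 8) R) =
      ((b : Matrix.SpecialLinearGroup (Fin 8) R) : Matrix (Fin 8) (Fin 8) R)) : a = b :=
  Subtype.ext (Subtype.ext h)

theorem tg_coe (i j : Fin 8) (h : RP i j) (r : R) :
    ((tg i j h r : Matrix.SpecialLinearGroup (Fin 8) R) : Matrix (Fin 8) (Fin 8) R) =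
      1 + Matrix.single i j r := rfl

theorem tg_mul_coe (a b : Gam R) :
    (((a * b : Gam R) : Matrix.SpecialLinearGroup (Fin 8) R) : Matrix (Fin 8) (Fin 8) R) =
      ((a : Matrix.SpecialLinearGroup (Fin 8) R) : Matrix (Fin 8) (Fin 8) R) *
      ((b : Matrix.SpecialLinearGroup (Fin 8) R) : Matrix (Fin 8) (Fin 8) R) := rfl

theorem tg_add (i j : Fin 8) (h : RP i j) (r s : R) :
    tg i j h (r + s) = tg i j h r * tg i j h s := by
  apply tg_ext
  rw [tg_mul_coe, tg_coe, tg_coe, tg_coe]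
  exact (Matrix.transvection_mul_transvection_same i j h.1 r s).symm

theorem tg_com (i j k l : Fin 8) (h : RP i j) (h' : RP k l) (hjk : j ≠ k) (hil : i ≠ l)
    (r s : R) : tg i j h r * tg k l h' s = tg k l h' s * tg i j h r := by
  apply tg_ext
  rw [tg_mul_coe, tg_mul_coe, tg_coe, tg_coe]
  rw [add_mul, add_mul, mul_add, mul_add, mul_add, mul_add,
    Matrix.single_mul_single_of_ne _ _ _ _ hjk, Matrix.single_mul_single_of_ne _ _ _ _ hil.symm]
  simp only [one_mul, mul_one]
  abel

theorem tg_mul (i j l : Fin 8) (h : RP i j) (h' : RP j l) (h'' : RP i l)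
    (r s : R) : tg i j h r * tg j l h' s = tg i l h'' (r * s) * tg j l h' s * tg i j h r := by
  apply tg_ext
  rw [tg_mul_coe, tg_mul_coe, tg_mul_coe, tg_coe, tg_coe, tg_coe]
  have e1 : (Matrix.single i j r : Matrix (Fin 8) (Fin 8) R) * Matrix.single j l s =
      Matrix.single i l (r * s) := Matrix.single_mul_single_same _ _ _ _ _
  have e2 : (Matrix.single i l (r * s) : Matrix (Fin 8) (Fin 8) R) * Matrix.single j l s = 0 :=
    Matrix.single_mul_single_of_ne _ _ _ _ h'.1.symm _
  have e3 : (Matrix.single i l (r * s) : Matrix (Fin 8) (Fin 8) R) * Matrix.single i j r = 0 :=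
    Matrix.single_mul_single_of_ne _ _ _ _ h''.1.symm _
  have e4 : (Matrix.single j l s : Matrix (Fin 8) (Fin 8) R) * Matrix.single i j r = 0 :=
    Matrix.single_mul_single_of_ne _ _ _ _ h''.1.symm _
  simp only [add_mul, mul_add, one_mul, mul_one, e1, e2, e3, e4, add_zero]
  abel

theorem h07 : RP 0 7 := by
  constructor
  · decide
  · decide

theorem aux0 : ∀ a : Fin 8, ¬ (0 : Fin 8) = a → blk 0 < blk a := by decide

theorem aux7 : ∀ b : Fin 8, ¬ (7 : Fin 8) = b → blk b < blk 7 := by decide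

theorem central (g : Gam R) (r : R) : g * tg 0 7 h07 r = tg 0 7 h07 r * g := by
  apply tg_ext
  rw [tg_mul_coe, tg_mul_coe, tg_coe]
  obtain ⟨hb, h0, h7, -⟩ := mem_Gam.1 g.2
  set m : Matrix (Fin 8) (Fin 8) R :=
    ((g : Matrix.SpecialLinearGroup (Fin 8) R) : Matrix (Fin 8) (Fin 8) R) with hm
  rw [mul_add, add_mul, mul_one, one_mul]
  congr 1
  ext a b
  rw [Matrix.mul_apply, Matrix.mul_apply]
  have e1 : ∑ k, m a k * (Matrix.single 0 7 r : Matrix (Fin 8) (Fin 8) R) k b =
      m a 0 * (Matrix.single 0 7 r : Matrix (Fin 8) (Fin 8) R) 0 b := by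
    refine Finset.sum_eq_single 0 ?_ ?_
    · intro k _ hk
      rw [Matrix.single_apply, if_neg, mul_zero]
      rintro ⟨h1, _⟩
      exact hk h1.symm
    · intro h; exact absurd (Finset.mem_univ _) h
  have e2 : ∑ k, (Matrix.single 0 7 r : Matrix (Fin 8) (Fin 8) R) a k * m k b =
      (Matrix.single 0 7 r : Matrix (Fin 8) (Fin 8) R) a 7 * m 7 b := by
    refine Finset.sum_eq_single 7 ?_ ?_
    · intro k _ hk
      rw [Matrix.single_apply, if_neg, zero_mul]
      rintro ⟨_, h1⟩
      exact hk h1.symm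
    · intro h; exact absurd (Finset.mem_univ _) h
  rw [e1, e2]
  have ha : m a 0 = if (0 : Fin 8) = a then 1 else 0 := by
    split_ifs with h
    · rw [← h]; exact h0
    · exact hb a 0 (aux0 a h)
  have hb' : m 7 b = if (7 : Fin 8) = b then 1 else 0 := by
    split_ifs with h
    · rw [← h]; exact h7
    · exact hb 7 b (aux7 b h)
  rw [ha, hb', Matrix.single_apply, Matrix.single_apply]
  by_cases h1 : (0 : Fin 8) = a <;> by_cases h2 : (7 : Fin 8) = b <;> simp [h1, h2]

/-- the homomorphism onto `Z` -/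
def psi (R : Type) [CommRing R] : Multiplicative ℤ →* Gam R where
  toFun n := tg 0 7 h07 ((Multiplicative.toAdd n : ℤ) : R)
  map_one' := by
    apply tg_ext
    rw [tg_coe]
    simp
  map_mul' := by
    intro a b
    rw [← tg_add]
    simp

theorem psi_apply (n : ℤ) : psi R (Multiplicative.ofAdd n) = tg 0 7 h07 (n : R) := rfl

theorem tg07_inj {r s : R} (h : tg 0 7 h07 r = tg 0 7 h07 s) : r = s := by
  have h1 := congrArg (fun g : Gam R =>
    ((g : Matrix.SpecialLinearGroup (Fin 8) R) : Matrix (Fin 8) (Fin 8) R) 0 7) h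
  simp only [tg_coe] at h1
  rw [Matrix.add_apply, Matrix.add_apply, Matrix.single_apply, Matrix.single_apply] at h1
  simpa using h1

end ring

theorem isGam : IsGam (Gam R2) := by
  intro g
  rw [mem_Gam, blk_eq]
  constructor
  · rintro ⟨hb, h0, h7, hd⟩
    exact ⟨fun i j hij => hb i j ((pat i j).1 hij), h0, h7, hd⟩
  · rintro ⟨hb, h0, h7, hd⟩
    exact ⟨fun i j hij => hb i j ((pat i j).2 hij), h0, h7, hd⟩

/-- one half -/
noncomputable def qq : R2 := IsLocalization.Away.invSelf (S := R2) ((2 : ℕ) : ℤ)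

theorem two_qq : ((2 : ℕ) : R2) * qq = 1 := by
  have h := IsLocalization.Away.mul_invSelf (S := R2) ((2 : ℕ) : ℤ)
  have h2 : algebraMap ℤ R2 ((2 : ℕ) : ℤ) = ((2 : ℕ) : R2) := by simp
  rw [h2] at h
  exact h

theorem R2_surj (r : R2) : ∃ (k : ℕ) (n : ℤ), ((2 : ℕ) : R2) ^ k * r = n := by
  obtain ⟨n, a, h⟩ := IsLocalization.Away.surj ((2 : ℕ) : ℤ) r
  refine ⟨n, a, ?_⟩
  have h2 : algebraMap ℤ R2 ((2 : ℕ) : ℤ) = ((2 : ℕ) : R2) := by simp
  have h3 : algebraMap ℤ R2 a = (a : R2) := by simp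
  rw [h2, h3] at h
  rw [mul_comm]
  exact h

theorem R2_inj : Function.Injective (algebraMap ℤ R2) := by
  refine IsLocalization.injective (M := Submonoid.powers ((2 : ℕ) : ℤ)) R2 ?_
  exact powers_le_nonZeroDivisors_of_noZeroDivisors (by norm_num)

theorem R2_count : Countable R2 := by
  have : Function.Surjective (fun p : ℕ × ℤ => qq ^ p.1 * (p.2 : R2)) := by
    intro r
    obtain ⟨k, n, h⟩ := R2_surj r
    refine ⟨(k, n), ?_⟩
    show qq ^ k * (n : R2) = r
    rw [← h, ← mul_assoc, ← mul_pow, mul_comm qq, two_qq, one_pow, one_mul]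
  exact this.countable

theorem qq_ne (n : ℤ) : ((n : ℤ) : R2) ≠ qq := by
  intro h
  have h1 := two_qq
  rw [← h] at h1
  have h2 : algebraMap ℤ R2 (2 * n) = algebraMap ℤ R2 1 := by
    rw [map_mul, map_one]
    simpa using h1
  have h3 := R2_inj h2
  omega

theorem t_grp : S_GRP := by
  refine ⟨Gam R2, isGam, (psi R2).range, ?_, ?_, ?_, ?_⟩
  · rintro z ⟨n, rfl⟩ i j hij
    show (1 + Matrix.single 0 7 ((Multiplicative.toAdd n : ℤ) : R2) :
      Matrix (Fin 8) (Fin 8) R2) i j = _
    rw [Matrix.add_apply, Matrix.single_apply, if_neg, add_zero]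
    rintro ⟨h1, h2⟩
    exact hij ⟨h1.symm, h2.symm⟩
  · refine ⟨(MonoidHom.ofInjective (f := psi R2) ?_).symm⟩
    intro a b hab
    have h1 := tg07_inj (R := R2) hab
    have h2 : (algebraMap ℤ R2) (Multiplicative.toAdd a) =
        (algebraMap ℤ R2) (Multiplicative.toAdd b) := by simpa using h1
    exact Multiplicative.toAdd.injective (R2_inj h2)
  · constructor
    rintro z ⟨n, rfl⟩ g
    refine ⟨n, ?_⟩
    show psi R2 n = g * psi R2 n * g⁻¹
    rw [eq_mul_inv_iff_mul_eq]
    exact (central g _).symm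
  · have hN : ((psi R2).range).Normal := by
      constructor
      rintro z ⟨n, rfl⟩ g
      refine ⟨n, ?_⟩
      show psi R2 n = g * psi R2 n * g⁻¹
      rw [eq_mul_inv_iff_mul_eq]
      exact (central g _).symm
    classical
    let x : Fin 8 → Fin 8 → R2 → (Gam R2) ⧸ ((psi R2).range) := fun i j r =>
      if h : RP i j then (QuotientGroup.mk (tg i j h r) : (Gam R2) ⧸ ((psi R2).range)) else 1
    have hx : ∀ i j (h : RP i j) r,
        x i j r = (QuotientGroup.mk (tg i j h r) : (Gam R2) ⧸ ((psi R2).range)) := by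
      intro i j h r
      exact dif_pos h
    refine ⟨qq, x, two_qq, R2_surj, R2_count, ?_, ?_, ?_⟩
    · constructor
      · intro i j h r s
        rw [hx i j h, hx i j h, hx i j h, tg_add]
        rfl
      · intro i j k l h h' hjk hil r s
        rw [hx i j h, hx k l h', ← QuotientGroup.mk_mul, tg_com i j k l h h' hjk hil]
        rfl
      · intro i j l h h' hil r s
        have h'' : RP i l := ⟨hil, h.2.trans h'.2⟩
        rw [hx i j h, hx j l h', hx i l h'', ← QuotientGroup.mk_mul, tg_mul i j l h h' h'']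
        rfl
    · rw [hx 0 7 h07, QuotientGroup.eq_one_iff]
      refine ⟨Multiplicative.ofAdd 1, ?_⟩
      rw [psi_apply]
      simp
    · rw [hx 0 7 h07, Ne, QuotientGroup.eq_one_iff]
      rintro ⟨n, hn⟩
      have h1 := tg07_inj (R := R2) hn
      rw [one_mul] at h1
      exact qq_ne _ h1

end Pool.Agent.N477.HS
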